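import Pool.Agent.N103.MU.Final

/-!
# Murre's conjecture (D) for all Chow-Kunneth decompositions: modifications and direct factors

`𝒱` is a class of smooth projective geometrically irreducible varieties over the field `k` closed
under products (for the problem: all of them over `ℂ`), `C` the Chow groups with rational
coefficients (in the form of their formal properties, `IsChowProj`), `H` a Weil cohomology theory
(for the problem: Betti cohomology). `C.comp Γ Δ` is the composition of first `Γ`, then `Δ`.

Let `h(X)` be a direct factor of `h(Y)`, `dim Y = dim X`, for instance by a morphism `f : Y → X` of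
degree `N ≠ 0`, such as a blow-up or a covering. Suppose that the homologically trivial
endomorphisms of the complement are nilpotent, for example that the complement is
finite-dimensional; nothing is assumed on `h(X)`. Then `Y` has a Chow-Kunneth decomposition and
`F^1 CH^i(Y)` is the group of homologically trivial cycles for all `i` and all Chow-Kunneth
decompositions of `Y` (conjecture (D)) if and only if the same holds for `X` and for the
complement. If the complement is a sum of Tate motives, for instance for the blow-up of points,
then (D) for `X` and for `Y` are equivalent.

The decompositions of `Y` need not be compatible with `f`. Each of them is conjugate to a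
compatible one by a unit of the ring of correspondences which acts as the identity on the
cohomology, and such units preserve the homologically trivial cycles.
-/

open CategoryTheory AlgebraicGeometry

set_option autoImplicit false

universe u v w

namespace Pool.Agent.Results.MP_583472_ag.DirectFactors

open Pool.Agent.H914 Pool.Agent.W492.BB Pool.Agent.TH133 Pool.Agent.Y107 Pool.Agent.W550.Corr
  Pool.Agent.N103.MU

/-- **Murre's conjecture (D), for all Chow-Kunneth decompositions, passes between a variety and its
direct factors of the same dimension with nilpotent complement.** -/
theorem result {k : Type u} [Field k] {𝒱 : VarClass k} (C : TheoryData.{u, v, 0} 𝒱 ℚ)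
    [IsChowProj C] {K : Type w} [Field K] (H : WeilTheoryData.{u, v, w} C K) [IsWeilProj H]
    (X Y : 𝒱.Obj) :
    (∀ (a : C.A (X.prod Y)) (b : C.A (Y.prod X)), Factor C a b →
      (NilOff H a b →
        ((HasCK H Y ∧ MurreD H Y) ↔ (HasCK H X ∧ MurreD H X) ∧
          (AlgComps H (dg C Y - C.comp b a) ∧
            ∀ r, CKOf H (dg C Y - C.comp b a) r → SatD H r))) ∧
      (TateRest C a b → ((HasCK H Y ∧ MurreD H Y) ↔ (HasCK H X ∧ MurreD H X)))) ∧
    -- the case of a morphism of degree `N`
    (∀ (f : Y ⟶ X) (N : ℚ), Y.dim = X.dim → N ≠ 0 → C.push f 1 = N • 1 →
      Factor C (C.cograph f) (N⁻¹ • C.graph f)) := by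
  refine ⟨fun a b h => ⟨fun hnil => murreD_factor h hnil, fun hT => ?_⟩,
    fun f N hd hN hf => factor_of_morphism f hd hN hf⟩
  rw [murreD_factor h (nilOff_of_tate (H := H) hT)]
  exact ⟨fun h' => h'.1, fun h' => ⟨h', components_of_tate hT, fun r hr =>
    (sat_of_tate h hT hr).2.2⟩⟩

end Pool.Agent.Results.MP_583472_ag.DirectFactors
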