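import Pool.Agent.N166.LD.Inj

/-!
# Murre's conjecture (D) and the injectivity of the Lefschetz operator on homologically trivial cycles

`𝒱` is a class of smooth projective geometrically irreducible varieties over a field `k` closed
under products, `C` the Chow groups with rational coefficients (in the form of their formal
properties, `IsChowProj`), `H` a Weil cohomology theory.

Let `X` be a variety of dimension `d` with a Chow-Kunneth decomposition `π` which satisfies hard
Lefschetz for a divisor class `h` on the level of Chow motives (`MotivicLefschetz`): for instance an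
abelian variety, a complete intersection, or a variety with a finite-dimensional motive which
satisfies the standard conjecture B. The filtration on `CH^i(X)` is
`F^n CH^i(X) = (π_{2i-n} + ⋯ + π_0) CH^i(X)`.

* `X`, `π` satisfy Murre's conjecture (D) if and only if for all `i` with `2 i ≤ d + 1` the
  multiplication with `h^(d+1-2i)` is injective on the homologically trivial cycles of codimension
  `i`. This does not involve decompositions. For fourfolds it is the injectivity of the
  multiplication with `h` on `CH^2(X)_hom`, for fivefolds that of the multiplication with `h^2`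
  (the case `i ≤ 1` is the theory of the Picard variety).
* More precisely, for each `I` with `2 I ≤ d + 1` conjecture (D) in the codimensions `i ≤ I` is
  equivalent to the injectivity for `i ≤ I`, and for `2 i > d + 1` it follows in codimension `i` from
  the codimensions `j ≤ d - i`.
* In the same way the first half of (B), `F^0 CH^i(X) = CH^i(X)`, is equivalent to the injectivity of
  `h^(d-2i)` on `CH^i(X)`, `2 i ≤ d`.
* For each `r`: `F^(r+1) CH^i(X) = 0` for all `i` if and only if the multiplication
  `h^(d+r-2i) : CH^i(X) → CH^(d+r-i)(X)` is surjective for `2 i ≤ d + r`. (The first is expected if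
  `k` has transcendence degree `r - 1` over the rational numbers; the case `r = 1` is the number
  field case of Bloch and Beilinson.)
* If `CH^i(X)_hom` and `CH^(d+1-i)(X)_hom` have the same finite rank for all `i`, as the conjecture
  of Beilinson and Bloch on the L-functions predicts over number fields, then (D) for `X` is
  equivalent to `F^2 CH^i(X) = 0` for all `i`.
-/

open CategoryTheory AlgebraicGeometry

set_option autoImplicit false

universe u v w

namespace Pool.Agent.Results.MP_583472_ag.InjectivityOfLefschetz

open Pool.Agent.H914 Pool.Agent.W492.BB Pool.Agent.TH133 Pool.Agent.Y107 Pool.Agent.W550.Corr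
  Pool.Agent.N166.LD

/-- **Murre's conjecture (D) is the injectivity of hard Lefschetz on homologically trivial
cycles.** -/
theorem result {k : Type u} [Field k] {𝒱 : VarClass k} (C : TheoryData.{u, v, 0} 𝒱 ℚ)
    [IsChowProj C] {K : Type w} [Field K] (H : WeilTheoryData.{u, v, w} C K) [IsWeilProj H]
    (X : 𝒱.Obj) (h : C.A X) (hh : C.Deg 1 h) (π : ℕ → C.A (X.prod X)) (hπ : IsCK H X π)
    (hL : MotivicLefschetz C (C.mulCorr h) π) :
    -- (D) in all codimensions
    ((∀ i, HoldsD H X π i) ↔ ∀ i, 2 * i ≤ X.dim + 1 → InjectiveOnHom H X h i) ∧
    -- (D) in low codimensions, and the other codimensions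
    (∀ I, 2 * I ≤ X.dim + 1 →
      ((∀ i ≤ I, HoldsD H X π i) ↔ ∀ i ≤ I, InjectiveOnHom H X h i)) ∧
    (∀ i, X.dim + 1 < 2 * i → (∀ j, j + i ≤ X.dim → HoldsD H X π j) → HoldsD H X π i) ∧
    -- the first half of (B)
    ((∀ i : ℕ, ckFil C π i 0 = C.gr X i) ↔ ∀ i, 2 * i ≤ X.dim → InjectiveOnChow C X h i) ∧
    -- the length of the filtration
    (∀ r : ℕ, (∀ i : ℕ, ckFil C π i (r + 1) = ⊥) ↔
      ∀ i, 2 * i ≤ X.dim + r → SurjectiveOnChow C X h r i) ∧
    -- equal ranks
    (EqualRanks H X → ((∀ i, HoldsD H X π i) ↔ ∀ i : ℕ, ckFil C π i 2 = ⊥)) :=
  have hL' : IsLefschetz H X (C.mulCorr h) π := ⟨hπ, hL⟩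
  ⟨d_iff hh hL', fun I hI => d_upto hh hL' I hI, fun i hi hD => d_dual hh hL' i hi hD,
    b_iff hh hL', fun r => len_iff hh hL' r, fun hr => rank_iff hh hL' hr⟩

end Pool.Agent.Results.MP_583472_ag.InjectivityOfLefschetz
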