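import Pool.Agent.N567.MD.MainD

/-!
# Murre's conjecture (D) and cycles of middle codimension

Let `𝒱` be the class of all the smooth projective varieties over a field which have a Chow-Kunneth
decomposition, or a class of varieties which satisfy the standard conjecture of Lefschetz type
(closed under products and smooth linear sections).

Murre's conjecture (D) for all the varieties `X` in `𝒱`, all their Chow-Kunneth decompositions and
all codimensions is equivalent to its special case that `dim X = 2 j` and the codimension is `j`, for
arbitrarily large `j`. It is also equivalent to a statement without Chow-Kunneth decompositions: for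
varieties `X` of dimension `2 j` the self-correspondences of degree zero which act as zero on
`H^m(X)` for `m < dim X` act nilpotently on the homologically trivial cycles of codimension `j`; it
is sufficient to know this for arbitrarily large `j` and for varieties which cover all the others. It
is also equivalent to the conjunction of finite-dimensionality in the sense of Kimura, for all `X` in
`𝒱`, and the special case `dim X = 2 j` for only ONE decomposition of each such `X`. In each case
the conjectures (C) and (B) (the vanishing `F^(i+1) CH^i = 0` for Lefschetz classes) follow.

The idea of the proof. Multiplying `X` with curves, each of the conditions follows for all dimensions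
and codimensions. Applied to `X × X` the condition (D) shows that homologically trivial
self-correspondences strictly lower the weights, so that they are nilpotent and there are no phantom
idempotents on `X` and its powers; applied to the antisymmetrizer (symmetrizer) of a large power of
the even (odd) part of `X` this shows that the motive of `X` is finite-dimensional. If it is, then all
the Chow-Kunneth decompositions of `X` are conjugate.
-/

set_option autoImplicit false

universe u v w

namespace Pool.Agent.Results.MP_583472_ag.MiddleCodimension

open Pool.Agent.H914 Pool.Agent.N164.Prim Pool.Agent.N567.Mid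
open Pool.Agent.W492.BB (TheoryData WeilTheoryData)

/-- Let `𝒱` be a class of varieties, closed under products (with Chow groups `C` and a Weil
cohomology `H`), which contains a curve and which is a Lefschetz class or consists of varieties with
Chow-Kunneth decompositions.

* The following are equivalent: the varieties `X` in `𝒱` have Chow-Kunneth decompositions and satisfy
  (D) in all codimensions; they have Chow-Kunneth decompositions and for arbitrarily large `j` those
  of dimension `2 j` satisfy (D) in codimension `j`; they have Chow-Kunneth decompositions and
  homologically trivial self-correspondences of degree zero strictly lower the weights; for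
  arbitrarily large `j` every variety of dimension `2 j` is covered by a variety `X'` of dimension
  `2 j'` such that the self-correspondences which act as zero on `H^m(X')` for `m < dim X'` act
  nilpotently on the homologically trivial part of `CH^(j')(X')`; the varieties in `𝒱` are
  finite-dimensional in the sense of Kimura, and for arbitrarily large `j` every `X` of dimension
  `2 j` has a Chow-Kunneth decomposition `π` such that the `π b` with `b ≥ 2 j` act as zero on the
  homologically trivial part of `CH^j(X)`.
* If, for some `j`, the varieties of dimension `2 j` satisfy (D) in codimension `j`, then all the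
  varieties of dimension at most `j` satisfy (D) and the first half of (B); and for the varieties `X`
  with `2 dim X ≤ j` the statement (C) and, for Lefschetz classes, the second half of (B) hold,
  homologically trivial self-correspondences of degree zero strictly lower the weights, and the
  composition of `2 dim X + 1` of them is zero.
* For a single variety `X` the statement (D) for the cycles of codimension `dim X` on `X × X` implies
  that homologically trivial self-correspondences of degree zero of `X` strictly lower the weights,
  and this implies (D) for `X` in all codimensions. -/
theorem result {k : Type u} [Field k] {𝒱 : VarClass k} {C : TheoryData.{u, v, 0} 𝒱 ℚ}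
    [IsChowTheory C] {K : Type w} [Field K] {H : WeilTheoryData.{u, v, w} C K} [IsWeilTheory H]
    (hg : IsGradedCommutative H) {T : 𝒱.Obj} (hT : T.dim = 1) (hL : IsLefschetzOrCK H) :
    List.TFAE [(∀ X : 𝒱.Obj, HasCK H X) ∧ ∀ (X : 𝒱.Obj) (i : ℕ), MurreD H X i,
      (∀ X : 𝒱.Obj, HasCK H X) ∧
        ∀ e : ℕ, ∃ j, e ≤ j ∧ ∀ X : 𝒱.Obj, X.dim = 2 * j → MurreD H X j,
      (∀ X : 𝒱.Obj, HasCK H X) ∧ ∀ X : 𝒱.Obj, StrictlyLowers H X,
      ∀ e : ℕ, ∃ j, e ≤ j ∧ ∀ X : 𝒱.Obj, X.dim = 2 * j →
        ∃ (X' : 𝒱.Obj) (j' : ℕ), Covers C X' X ∧ X'.dim = 2 * j' ∧ NilpotentOnHom H X' j',
      (∀ X : 𝒱.Obj, IsKimuraFinite C X) ∧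
        ∀ e : ℕ, ∃ j, e ≤ j ∧ ∀ X : 𝒱.Obj, X.dim = 2 * j → HasGoodD H X j] ∧
    (∀ j : ℕ, (∀ X : 𝒱.Obj, X.dim = 2 * j → MurreD H X j) →
      (∀ X : 𝒱.Obj, X.dim ≤ j → ∀ i : ℕ, MurreD H X i ∧ MurreB0 H X i) ∧
      (∀ X : 𝒱.Obj, 2 * X.dim ≤ j →
        (∀ i : ℕ, MurreC H X i) ∧ (IsLefschetzClass H → ∀ i : ℕ, MurreB1 H X i) ∧
        StrictlyLowers H X ∧ (HasCK H X → NilpotentOfIndex H X (2 * X.dim + 1)))) ∧
    (∀ X : 𝒱.Obj, (MurreD H (X.prod X) X.dim → StrictlyLowers H X) ∧
      (StrictlyLowers H X → ∀ i : ℕ, MurreD H X i)) :=
  mainD inferInstance inferInstance hg hT hL

end Pool.Agent.Results.MP_583472_ag.MiddleCodimension
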